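import Mathlib
import Pool.Agent.H.MP_d80832_gt.D

set_option autoImplicit false

namespace Pool.Agent.Results.MP_d80832_gt.NotHered

open Set Filter Function Cardinal

/-- Countable cover of X by Borel subsets of X, not containing X. -/
def IsB (X : Set ℝ) (𝒰 : Set (Set ℝ)) : Prop :=
  𝒰.Countable ∧ (∀ U ∈ 𝒰, ∃ B, MeasurableSet B ∧ U = B ∩ X) ∧ ⋃₀ 𝒰 = X ∧ X ∉ 𝒰

/-- Countable Borel omega-cover. -/
def IsOmega (X : Set ℝ) (𝒰 : Set (Set ℝ)) : Prop :=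
  IsB X 𝒰 ∧ ∀ F : Set ℝ, F.Finite → F ⊆ X → ∃ U ∈ 𝒰, F ⊆ U

/-- Countable Borel gamma-cover. -/
def IsGamma (X : Set ℝ) (𝒰 : Set (Set ℝ)) : Prop :=
  IsB X 𝒰 ∧ 𝒰.Infinite ∧ ∀ x ∈ X, {U ∈ 𝒰 | x ∉ U}.Finite

/-- Countable Borel tau-cover. -/
def IsTau (X : Set ℝ) (𝒰 : Set (Set ℝ)) : Prop :=
  IsB X 𝒰 ∧ (∀ x ∈ X, {U ∈ 𝒰 | x ∈ U}.Infinite) ∧ ∀ x ∈ X, ∀ y ∈ X,
    {U ∈ 𝒰 | x ∈ U ∧ y ∉ U}.Finite ∨ {U ∈ 𝒰 | y ∈ U ∧ x ∉ U}.Finite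

/-- Single selection principle. -/
def S1 (A B : Set (Set ℝ) → Prop) : Prop :=
  ∀ 𝒰 : ℕ → Set (Set ℝ), (∀ n, A (𝒰 n)) → ∃ U : ℕ → Set ℝ, (∀ n, U n ∈ 𝒰 n) ∧ B (range U)

/-- Finite selection principle. -/
def Sfin (A B : Set (Set ℝ) → Prop) : Prop :=
  ∀ 𝒰 : ℕ → Set (Set ℝ), (∀ n, A (𝒰 n)) →
    ∃ F : ℕ → Set (Set ℝ), (∀ n, (F n).Finite ∧ F n ⊆ 𝒰 n) ∧ B (⋃ n, F n)

theorem gt {X : Set ℝ} {𝒰 : Set (Set ℝ)} (h : IsGamma X 𝒰) : IsTau X 𝒰 :=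
  ⟨h.1, fun x hx => (h.2.1.diff (h.2.2 x hx)).mono fun _ k => ⟨k.1, by_contra fun l => k.2 ⟨k.1, l⟩⟩,
    fun _ _ y hy => Or.inl ((h.2.2 y hy).subset fun _ k => ⟨k.1, k.2.2⟩)⟩

theorem to' {X : Set ℝ} (hX : X.Nonempty) {𝒰 : Set (Set ℝ)} (h : IsTau X 𝒰) : IsOmega X 𝒰 := by
  refine ⟨h.1, fun F hF hs => ?_⟩
  have : ∃ x ∈ X, ∀ y ∈ F, {U ∈ 𝒰 | x ∈ U ∧ y ∉ U}.Finite := by
    induction F, hF using Set.Finite.induction_on with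
    | empty => exact ⟨_, hX.some_mem, by simp⟩
    | @insert a F _ _ ih =>
      obtain ⟨x, x1, x2⟩ := ih ((subset_insert _ _).trans hs)
      have ha := hs (mem_insert _ _)
      rcases h.2.2 x x1 a ha with k | k
      · exact ⟨x, x1, fun y hy => hy.elim (· ▸ k) (x2 y)⟩
      · refine ⟨a, ha, fun y hy => hy.elim (by rintro rfl; simp) fun l =>
          (k.union (x2 y l)).subset fun U hU => ?_⟩
        by_cases m : x ∈ U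
        exacts [Or.inr ⟨hU.1, m, hU.2.2⟩, Or.inl ⟨hU.1, hU.2.1, m⟩]
  obtain ⟨x, x1, x2⟩ := this
  obtain ⟨U, u1, u2⟩ := ((h.2.1 x x1).diff (hF.biUnion x2)).nonempty
  exact ⟨U, u1.1, fun y hy => by_contra fun l => u2 (mem_biUnion hy ⟨u1.1, u1.2, l⟩)⟩

theorem S1.imp {A B C : Set (Set ℝ) → Prop} (h : S1 A B) (k : ∀ 𝒰, B 𝒰 → C 𝒰) : S1 A C :=
  fun 𝒰 a => (h 𝒰 a).imp fun _ b => ⟨b.1, k _ b.2⟩

theorem Sfin.imp {A B C : Set (Set ℝ) → Prop} (h : Sfin A B) (k : ∀ 𝒰, B 𝒰 → C 𝒰) : Sfin A C :=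
  fun 𝒰 a => (h 𝒰 a).imp fun _ b => ⟨b.1, k _ b.2⟩

theorem S1.fin {A B : Set (Set ℝ) → Prop} (h : S1 A B) : Sfin A B := fun 𝒰 a => by
  obtain ⟨U, u1, u2⟩ := h 𝒰 a
  exact ⟨fun n => {U n}, fun n => ⟨finite_singleton _, singleton_subset_iff.2 (u1 n)⟩,
    by rwa [iUnion_singleton_eq_range]⟩

open H.MP_d80832_gt H.MP_d80832_gt.Setup

theorem pX {e : (ℕ → V) → ℝ} (he : MeasurableEmbedding e) {X : Set (ℕ → V)} (h0 : X.Nonempty)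
    (h : ∀ B : ℕ → ℕ → Set (ℕ → V), (∀ n k, MeasurableSet (B n k)) →
      Bad B X ∨ ∃ κ : ℕ → ℕ, ∀ x ∈ X, ∀ᶠ n in atTop, x ∈ B n (κ n)) :
    S1 (IsTau (e '' X)) (IsGamma (e '' X)) := by
  intro 𝒰 h𝒰
  have : ∀ n, ∃ u : ℕ → Set ℝ, Injective u ∧ range u = 𝒰 n := fun n => by
    haveI := (h𝒰 n).1.1.to_subtype
    haveI := (((h𝒰 n).2.1 _ ⟨_, h0.some_mem, rfl⟩).mono (sep_subset _ _)).to_subtype
    obtain ⟨d⟩ := nonempty_denumerable (𝒰 n)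
    exact ⟨Subtype.val ∘ (Denumerable.eqv (𝒰 n)).symm, Subtype.val_injective.comp
      (Equiv.injective _), by rw [(Equiv.surjective _).range_comp, Subtype.range_coe]⟩
  choose u u1 u2 using this
  have um : ∀ n k, u n k ∈ 𝒰 n := fun n k => (u2 n).le ⟨k, rfl⟩
  choose B B1 B2 using fun n k => (h𝒰 n).1.2.1 _ (um n k)
  have m : ∀ n k, ∀ x ∈ X, x ∈ e ⁻¹' B n k ↔ e x ∈ u n k := fun n k x hx => by
    rw [B2]; exact ⟨fun a => ⟨a, x, hx, rfl⟩, fun a => a.1⟩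
  rcases h (fun n k => e ⁻¹' B n k) fun n k => he.measurable (B1 n k) with
    ⟨n, x, hx, y, hy, k | k⟩ | ⟨κ, k⟩
  · refine absurd ((k.image (u n)).subset ?_) ((h𝒰 n).2.1 _ ⟨x, hx, rfl⟩)
    rintro U ⟨a, b⟩
    obtain ⟨i, rfl⟩ := (u2 n).ge a
    exact ⟨i, (m n i x hx).2 b, rfl⟩
  · exfalso
    have q : ∀ x ∈ X, ∀ y ∈ X, {k | x ∈ e ⁻¹' B n k ∧ y ∉ e ⁻¹' B n k}.Infinite →
        {U ∈ 𝒰 n | e x ∈ U ∧ e y ∉ U}.Infinite := fun x hx y hy a =>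
      (a.image (u1 n).injOn).mono (by
        rintro _ ⟨i, b, rfl⟩
        exact ⟨um n i, (m n i x hx).1 b.1, fun c => b.2 ((m n i y hy).2 c)⟩)
    exact ((h𝒰 n).2.2 _ ⟨x, hx, rfl⟩ _ ⟨y, hy, rfl⟩).elim (q x hx y hy k.1) (q y hy x hx k.2)
  have k' : ∀ z ∈ e '' X, ∀ᶠ n in atTop, z ∈ u n (κ n) := by
    rintro _ ⟨x, hx, rfl⟩
    exact (k x hx).mono fun n a => (m n _ x hx).1 a
  have sb : ∀ n, u n (κ n) ⊆ e '' X := fun n => by rw [B2]; exact inter_subset_right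
  refine ⟨fun n => u n (κ n), fun n => um _ _, ⟨countable_range _, ?_, ?_, ?_⟩, fun f => ?_,
    fun z hz => ?_⟩
  · rintro _ ⟨n, rfl⟩; exact ⟨_, B1 _ _, B2 _ _⟩
  · rw [sUnion_range]
    exact (iUnion_subset sb).antisymm fun z hz => mem_iUnion.2 (k' z hz).exists
  · rintro ⟨n, a⟩; exact (h𝒰 n).1.2.2.2 (a ▸ um n _)
  · have : ∀ W ∈ range fun n => u n (κ n), ∀ᶠ n in atTop, u n (κ n) ≠ W := by
      rintro _ ⟨i, rfl⟩
      obtain ⟨z, z1, z2⟩ := not_subset.1 fun a : e '' X ⊆ u i (κ i) =>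
        (h𝒰 i).1.2.2.2 ((sb i).antisymm a ▸ um i _)
      exact (k' z z1).mono fun n a b => z2 (b.le a)
    obtain ⟨n, a⟩ := ((eventually_all_finite f).2 this).exists
    exact a _ ⟨n, rfl⟩ rfl
  · obtain ⟨n, a⟩ := eventually_atTop.1 (k' z hz)
    refine ((finite_Iio n).image fun n => u n (κ n)).subset ?_
    rintro _ ⟨⟨i, rfl⟩, b⟩
    exact ⟨i, (not_le.1 fun c => b (a i c) : i < n), rfl⟩

theorem pY {e : (ℕ → V) → ℝ} (he : MeasurableEmbedding e) {S : Setup} {Y : Set (ℕ → V)}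
    (h1 : Y ⊆ S.K) (h2 : ∀ y ∈ Y, S.Md y ⊆ Y) (h3 : ∀ a ∈ Y, ∀ b ∈ Y, Sub a b ∨ Sub b a)
    (h4 : ∀ f : ℕ → ℕ × ℕ, ∃ y ∈ Y, ∃ y' ∈ Y, (∀ c l, (c, (f c).2) ∉ y l) ∧
      ∀ c l j, l < (f c).1 → (c, j) ∈ y' l → (c, j) ∉ y l) :
    ¬ S1 (IsTau (e '' Y)) (IsB (e '' Y)) ∧ ¬ Sfin (IsTau (e '' Y)) (IsOmega (e '' Y)) := by
  let W : ℕ → ℕ × ℕ → Set ℝ := fun c i => e '' {y | (c, i.2) ∈ y i.1} ∩ e '' Y
  have m : ∀ c i, ∀ y ∈ Y, e y ∈ W c i ↔ (c, i.2) ∈ y i.1 := fun c i y hy =>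
    ⟨fun ⟨⟨z, a, b⟩, _⟩ => he.injective b ▸ a, fun a => ⟨⟨y, a, rfl⟩, y, hy, rfl⟩⟩
  have T : ∀ c, IsTau (e '' Y) (range (W c)) := by
    intro c
    have q : ∀ a ∈ Y, ∀ b ∈ Y, Sub a b → {U ∈ range (W c) | e a ∈ U ∧ e b ∉ U}.Finite := by
      intro a ha b hb k
      obtain ⟨n, hn⟩ := eventually_atTop.1 (k c)
      refine (((finite_Iio n).biUnion fun l _ => (a l).finite_toSet.image
        fun x => (l, x.2)).image (W c)).subset ?_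
      rintro _ ⟨⟨⟨l, j⟩, rfl⟩, a1, a2⟩
      rw [m c _ a ha] at a1
      rw [m c _ b hb] at a2
      exact ⟨_, mem_biUnion (not_le.1 fun d => a2 (hn l d j a1) : l < n) ⟨_, a1, rfl⟩, rfl⟩
    refine ⟨⟨countable_range _, ?_, ?_, ?_⟩, ?_, ?_⟩
    · rintro _ ⟨i, rfl⟩
      exact ⟨_, he.measurableSet_image.2 (measurable_pi_apply i.1
        (isOpen_discrete {v : V | (c, i.2) ∈ v}).measurableSet), rfl⟩
    · rw [sUnion_range]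
      refine (iUnion_subset fun _ => inter_subset_right).antisymm ?_
      rintro _ ⟨y, hy, rfl⟩
      obtain ⟨j, hj⟩ := S.col c _ (h1 hy c) c le_rfl
      exact mem_iUnion.2 ⟨(c, j), (m c _ y hy).2 hj⟩
    · rintro ⟨i, a⟩
      obtain ⟨y, hy, -, -, b, -⟩ := h4 fun _ => i
      exact b c _ ((m c i y hy).1 (a.ge ⟨y, hy, rfl⟩))
    · rintro _ ⟨y, hy, rfl⟩
      choose j hj using fun l => S.col (l + c) _ (h1 hy _) c (Nat.le_add_left _ _)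
      refine infinite_of_injective_forall_mem (f := fun l => W c (l + c, j l)) (fun a b k => ?_)
        fun l => ⟨⟨_, rfl⟩, (m c _ y hy).2 (hj l)⟩
      by_contra ne
      obtain ⟨z, hz, -, -, d, -⟩ := h4 fun _ => (0, j b)
      have w : update y (b + c) (z (b + c)) ∈ Y := h2 y hy ⟨fun l => by
        by_cases r : l = b + c
        · subst r; simpa using h1 hz _
        · rw [update_of_ne r]; exact h1 hy _, (eventually_gt_atTop (b + c)).mono fun l r =>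
          update_of_ne r.ne' _ _⟩
      have := (m c (b + c, j b) _ w).1 (k.le ((m c (a + c, j a) _ w).2 (by
        rw [update_of_ne (by simpa using ne)]; exact hj a)))
      exact d c (b + c) (by simpa using this)
    · rintro _ ⟨a, ha, rfl⟩ _ ⟨b, hb, rfl⟩
      exact (h3 a ha b hb).imp (q a ha b hb) (q b hb a ha)
  refine ⟨fun k => ?_, fun k => ?_⟩
  · obtain ⟨U, u1, u2⟩ := k _ T
    choose f hf using u1
    obtain ⟨y, hy, -, -, b, -⟩ := h4 f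
    obtain ⟨_, ⟨c, rfl⟩, a⟩ := u2.2.2.1.ge ⟨y, hy, rfl⟩
    exact b c _ ((m c _ y hy).1 (hf c ▸ a))
  · obtain ⟨F, f1, f2⟩ := k _ T
    have : ∀ c, ∃ g, ∀ U ∈ F c, ∃ i, W c i = U ∧ i.1 < g := fun c => by
      choose! i hi using fun U (a : U ∈ F c) => (f1 c).2 a
      obtain ⟨g, hg⟩ := ((f1 c).1.image fun U => (i U).1).bddAbove
      exact ⟨g + 1, fun U a => ⟨_, hi U a, Nat.lt_succ_of_le (hg ⟨U, a, rfl⟩)⟩⟩
    choose g hg using this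
    obtain ⟨y, hy, z, hz, -, b⟩ := h4 fun c => (g c, 0)
    obtain ⟨U, u1, u2⟩ := f2.2 {e y, e z} (toFinite _)
      (insert_subset ⟨y, hy, rfl⟩ (singleton_subset_iff.2 ⟨z, hz, rfl⟩))
    obtain ⟨c, hc⟩ := mem_iUnion.1 u1
    obtain ⟨i, rfl, a⟩ := hg c U hc
    exact b c _ _ a ((m c i z hz).1 (u2 (Or.inr rfl))) ((m c i y hy).1 (u2 (Or.inl rfl)))

/-- Under CH there is a set of reals having all six properties with a subset having none. -/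
theorem result (h : continuum.{0} = aleph 1) : ∃ X Y : Set ℝ, Y ⊆ X ∧
    (S1 (IsTau X) (IsGamma X) ∧ S1 (IsTau X) (IsTau X) ∧ S1 (IsTau X) (IsOmega X) ∧
      S1 (IsTau X) (IsB X) ∧ Sfin (IsTau X) (IsTau X) ∧ Sfin (IsTau X) (IsOmega X)) ∧
    (¬ S1 (IsTau Y) (IsGamma Y) ∧ ¬ S1 (IsTau Y) (IsTau Y) ∧ ¬ S1 (IsTau Y) (IsOmega Y) ∧
      ¬ S1 (IsTau Y) (IsB Y) ∧ ¬ Sfin (IsTau Y) (IsTau Y) ∧ ¬ Sfin (IsTau Y) (IsOmega Y)) := by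
  obtain ⟨S⟩ := exSetup
  obtain ⟨X, Y, a1, a2, a3, a4, a5, a6⟩ := build (S := S) h
  obtain ⟨e, he⟩ := MeasureTheory.exists_measurableEmbedding_real (ℕ → V)
  obtain ⟨y, hy, -⟩ := a6 fun _ => 0
  have x1 := pX he ⟨y, a1 hy⟩ a3
  have x2 := x1.imp fun _ => gt
  have x3 := x2.imp fun _ => to' (mem_image_of_mem e (a1 hy) |> nonempty_of_mem)
  obtain ⟨y1, y2⟩ := pY he a2 a4 a5 a6
  exact ⟨_, _, image_mono a1, ⟨x1, x2, x3, x3.imp fun _ => And.left, x2.fin, x3.fin⟩,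
    fun k => y1 (k.imp fun _ => And.left), fun k => y1 (k.imp fun _ => And.left),
    fun k => y1 (k.imp fun _ => And.left), y1,
    fun k => y2 (k.imp fun _ => to' (mem_image_of_mem e hy |> nonempty_of_mem)), y2⟩

end Pool.Agent.Results.MP_d80832_gt.NotHered
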